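import Pool.Agent.H67.LW.Spec

/-!
Part MS of the blueprint LW: circuits generating the cycle space with few members meeting every
block of consecutive edges.
-/

set_option autoImplicit false
set_option linter.unusedSectionVars false

namespace LW

open Finset Module
open Pool.Agent.Helper36.BN

namespace MSH

section abstract

variable {E : Type} [Fintype E] [DecidableEq E] {ι : Type} [Fintype ι] [DecidableEq ι]
  {C : Submodule (ZMod 2) (E → ZMod 2)}

/-- a basis with distinct tops for `f` and for `g` all of whose members have minimal supports -/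
theorem exists_good (f g : E → ℕ) (hf : Function.Injective f) (hg : Function.Injective g)
    (b₀ : Basis ι (ZMod 2) C) : ∃ b : Basis ι (ZMod 2) C, Distinct f b ∧ Distinct g b ∧
      ∀ i, ∀ x ∈ C, x ≠ 0 → supp x ⊆ supp (b i : E → ZMod 2) → x = b i := by
  classical
  let P : Basis ι (ZMod 2) C → ℕ := fun b =>
    ∑ i, (top f (b i : E → ZMod 2) + top g (b i : E → ZMod 2))
  let Q : Basis ι (ZMod 2) C → ℕ := fun b => ∑ i, (supp (b i : E → ZMod 2)).card
  obtain ⟨b, hb, hbQ⟩ : ∃ b : Basis ι (ZMod 2) C, (∀ b' : Basis ι (ZMod 2) C, P b ≤ P b') ∧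
      ∀ b' : Basis ι (ZMod 2) C, P b' ≤ P b → Q b ≤ Q b' := by
    have hne : (Set.range P).Nonempty := ⟨_, b₀, rfl⟩
    obtain ⟨b₁, hb₁⟩ := Nat.sInf_mem hne
    have hmin : ∀ b', P b₁ ≤ P b' := fun b' => by rw [hb₁]; exact Nat.sInf_le ⟨b', rfl⟩
    have hne2 : (Q '' {b | P b ≤ P b₁}).Nonempty := ⟨_, b₁, (le_refl (P b₁) : P b₁ ≤ P b₁), rfl⟩
    obtain ⟨b, hbP, hb⟩ := Nat.sInf_mem hne2
    refine ⟨b, fun b' => (hbP : P b ≤ P b₁).trans (hmin b'), fun b' h => ?_⟩
    rw [hb]
    exact Nat.sInf_le ⟨b', h.trans hbP, rfl⟩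
  refine ⟨b, distinct_of_min f g hf b hb, distinct_of_min g f hg b fun b' => ?_, ?_⟩
  · have := hb b'
    simp only [P] at this
    simp only [add_comm (top g _)]
    exact this
  -- a smaller vector with nonzero coordinate is impossible
  have key : ∀ i, ∀ x : C, b.repr x i ≠ 0 →
      supp (x : E → ZMod 2) ⊂ supp (b i : E → ZMod 2) → False := by
    intro i x hx hs
    obtain ⟨b', hb'⟩ := exchange b x i hx
    have h1 : P b' ≤ P b := by
      refine sum_le_sum fun k _ => ?_
      rw [hb' k]
      by_cases hk : k = i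
      · subst hk
        rw [if_pos rfl]
        exact add_le_add (sup_mono hs.1) (sup_mono hs.1)
      · rw [if_neg hk]
    have h2 : Q b' < Q b := by
      refine sum_lt_sum (fun k _ => ?_) ⟨i, mem_univ i, ?_⟩
      · rw [hb' k]
        by_cases hk : k = i
        · subst hk
          rw [if_pos rfl]
          exact card_le_card hs.1
        · rw [if_neg hk]
      · rw [hb' i, if_pos rfl]
        exact card_lt_card hs
    exact absurd (hbQ b' h1) (not_le.2 h2)
  intro i x hx hx0 hs
  by_contra hne
  let x' : C := ⟨x, hx⟩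
  let y' : C := b i + x'
  have hy : ∀ e, (y' : E → ZMod 2) e = (b i : E → ZMod 2) e + x e := fun e => rfl
  have hxs : supp (x' : E → ZMod 2) ⊂ supp (b i : E → ZMod 2) := by
    refine ⟨hs, fun h => hne ?_⟩
    funext e
    by_cases h1 : x e = 0
    · rw [h1]
      by_contra h2
      exact (mem_supp.1 (h (mem_supp.2 (Ne.symm h2)))) h1
    · have h2 := mem_supp.1 (hs (mem_supp.2 h1))
      rw [z2_ne.1 h1, z2_ne.1 h2]
  have hys : supp (y' : E → ZMod 2) ⊂ supp (b i : E → ZMod 2) := by
    have h0 : supp (y' : E → ZMod 2) ⊆ supp (b i : E → ZMod 2) := by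
      intro e he
      rw [mem_supp] at he ⊢
      intro h
      have h1 : x e = 0 := by
        by_contra h2
        exact (mem_supp.1 (hs (mem_supp.2 h2))) h
      apply he
      rw [hy, h, h1, add_zero]
    refine ⟨h0, fun h => hx0 ?_⟩
    funext e
    by_contra h1
    have h2 := hs (mem_supp.2 h1)
    have h3 := mem_supp.1 (h h2)
    apply h3
    rw [hy, z2_ne.1 (mem_supp.1 h2), z2_ne.1 h1]
    exact z2_add_self 1
  have hxr : b.repr x' i = 0 := by
    by_contra h
    exact key i x' h hxs
  have hyr : b.repr y' i = 0 := by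
    by_contra h
    exact key i y' h hys
  have : b.repr y' i = 1 + b.repr x' i := by
    simp only [y', map_add, Finsupp.add_apply, b.repr_self, Finsupp.single_eq_same]
  rw [hxr, hyr] at this
  simp at this

end abstract

section graph

variable {V E : Type} [Fintype V] [DecidableEq V] [Fintype E] [DecidableEq E]

/-- more edges than vertices: a nonzero cycle vector -/
theorem exists_cyc (s t : E → V) (F : Finset E) (U : Finset V) (v₀ : V)
    (hU : ∀ e ∈ F, ∀ v, (s e = v ∨ t e = v) → v ≠ v₀ → v ∈ U) (h : U.card < F.card) :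
    ∃ x ∈ cyc s t F, x ≠ 0 := by
  classical
  let f : (F → ZMod 2) →ₗ[ZMod 2] (U → ZMod 2) :=
    { toFun := fun y v => ∑ e : F, y e * inc s t v.1 e.1
      map_add' := by
        intro y z; funext v
        simp [add_mul, sum_add_distrib]
      map_smul' := by
        intro c y; funext v
        simp [mul_assoc, mul_sum] }
  have hker : LinearMap.ker f ≠ ⊥ := by
    apply LinearMap.ker_ne_bot_of_finrank_lt
    rw [Module.finrank_fintype_fun_eq_card, Module.finrank_fintype_fun_eq_card, Fintype.card_coe,
      Fintype.card_coe]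
    exact h
  obtain ⟨y, hy, hy0⟩ := (Submodule.ne_bot_iff _).1 hker
  have hfy : ∀ v : U, ∑ e : F, y e * inc s t v.1 e.1 = 0 := fun v => congrFun hy v
  let x : E → ZMod 2 := fun e => if h : e ∈ F then y ⟨e, h⟩ else 0
  have hx0 : ∀ e, e ∉ F → x e = 0 := fun e h => by simp only [x, dif_neg h]
  have hxF : ∀ e : F, x e.1 = y e := fun e => by simp only [x, dif_pos e.2]
  have hsum : ∀ g : E → ZMod 2, ∑ e, x e * g e = ∑ e : F, y e * g e.1 := by
    intro g
    rw [← sum_subset (subset_univ F) (fun e _ he => by rw [hx0 e he, zero_mul]),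
      ← sum_coe_sort F]
    exact sum_congr rfl fun e _ => by rw [hxF]
  have hv : ∀ v, v ≠ v₀ → ∑ e, x e * inc s t v e = 0 := by
    intro v hv
    rw [hsum]
    by_cases hvU : v ∈ U
    · exact hfy ⟨v, hvU⟩
    · refine sum_eq_zero fun e _ => ?_
      have h1 : s e.1 ≠ v := fun h => hvU (hU e.1 e.2 v (Or.inl h) hv)
      have h2 : t e.1 ≠ v := fun h => hvU (hU e.1 e.2 v (Or.inr h) hv)
      simp [inc, h1, h2]
  refine ⟨x, ⟨hx0, fun v => ?_⟩, ?_⟩
  · by_cases h1 : v = v₀
    · subst h1
      have h2 : ∑ w, ∑ e, x e * inc s t w e = 0 := by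
        rw [sum_comm]
        refine sum_eq_zero fun e _ => ?_
        rw [← mul_sum, sum_inc, mul_zero]
      rw [sum_eq_single v] at h2
      · exact h2
      · intro w _ hw; exact hv w hw
      · intro h'; exact absurd (mem_univ v) h'
    · exact hv v h1
  · intro h
    apply hy0
    funext e
    rw [← hxF e, h]; rfl

theorem inc_eq (s t : E → V) (hl : ∀ e, s e ≠ t e) (v : V) (e : E) :
    inc s t v e = if s e = v ∨ t e = v then 1 else 0 := by
  unfold inc
  by_cases h1 : s e = v
  · have h2 : t e ≠ v := fun h => hl e (h1.trans h.symm)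
    simp [h1, h2]
  · simp [h1]

/-- the boundary is the degree modulo two -/
theorem bd_eq (s t : E → V) (hl : ∀ e, s e ≠ t e) (x : E → ZMod 2) (v : V) :
    ∑ e, x e * inc s t v e = (deg s t x v : ZMod 2) := by
  classical
  have h1 : ∀ e, x e * inc s t v e = if x e ≠ 0 ∧ (s e = v ∨ t e = v) then 1 else 0 := by
    intro e
    rw [inc_eq s t hl]
    by_cases h1 : x e = 0
    · simp [h1]
    · by_cases h2 : s e = v ∨ t e = v
      · rw [if_pos h2, if_pos ⟨h1, h2⟩, z2_ne.1 h1, mul_one]
      · rw [if_neg h2, if_neg (fun h => h2 h.2), mul_zero]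
  rw [sum_congr rfl fun e _ => h1 e, sum_boole]
  unfold deg
  congr 2
  ext e
  simp only [mem_filter]

/-- handshake -/
theorem sum_deg (s t : E → V) (hl : ∀ e, s e ≠ t e) (x : E → ZMod 2) :
    ∑ v, deg s t x v = 2 * (supp x).card := by
  classical
  have h1 : ∀ v, deg s t x v = ∑ e ∈ supp x, if v ∈ ({s e, t e} : Finset V) then 1 else 0 := by
    intro v
    unfold deg
    rw [← sum_filter, sum_const, smul_eq_mul, mul_one]
    congr 1
    ext e
    simp only [mem_filter, mem_univ, true_and, mem_supp, mem_insert, mem_singleton, eq_comm]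
  rw [sum_congr rfl fun v _ => h1 v, sum_comm, mul_comm, ← smul_eq_mul, ← sum_const]
  refine sum_congr rfl fun e _ => ?_
  rw [← sum_filter, sum_const, smul_eq_mul, mul_one]
  have : (univ.filter fun v => v ∈ ({s e, t e} : Finset V)) = {s e, t e} := by
    ext v; simp
  rw [this, card_pair (hl e)]

/-- a cycle vector with minimal support is a circuit -/
theorem deg_le_two (s t : E → V) (hl : ∀ e, s e ≠ t e) (z : E → ZMod 2)
    (hz : z ∈ cyc s t (univ : Finset E))
    (hmin : ∀ x ∈ cyc s t (univ : Finset E), x ≠ 0 → supp x ⊆ supp z → x = z) (v : V) :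
    deg s t z v ≤ 2 := by
  classical
  by_contra hv
  push Not at hv
  have heven : ∀ u, Even (deg s t z u) := by
    intro u
    rw [← ZMod.natCast_eq_zero_iff_even, ← bd_eq s t hl]
    exact hz.2 u
  have h4 : 4 ≤ deg s t z v := by
    obtain ⟨r, hr⟩ := heven v
    omega
  let U : Finset V := univ.filter fun u => 0 < deg s t z u
  have hvU : v ∈ U := by simp only [U, mem_filter, mem_univ, true_and]; omega
  have hsumU : ∑ u ∈ U, deg s t z u = 2 * (supp z).card := by
    rw [← sum_deg s t hl z]
    apply sum_subset (subset_univ U)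
    intro u _ hu
    simp only [U, mem_filter, mem_univ, true_and, not_lt, Nat.le_zero] at hu
    exact hu
  have hge : ∀ u ∈ U, 2 ≤ deg s t z u := by
    intro u hu
    simp only [U, mem_filter, mem_univ, true_and] at hu
    obtain ⟨r, hr⟩ := heven u
    omega
  have h5 : 2 * (U.erase v).card ≤ ∑ u ∈ U.erase v, deg s t z u := by
    rw [mul_comm, ← smul_eq_mul, ← sum_const]
    exact sum_le_sum fun u hu => hge u (mem_of_mem_erase hu)
  have h6 := sum_erase_add U (fun u => deg s t z u) hvU
  have h7 := card_erase_of_mem hvU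
  have h8 : 0 < U.card := card_pos.2 ⟨v, hvU⟩
  have h9 : U.card < (supp z).card := by
    have h6' : ∑ u ∈ U.erase v, deg s t z u + deg s t z v = ∑ u ∈ U, deg s t z u := h6
    omega
  -- remove an edge
  have hS : (supp z).Nonempty := card_pos.1 (by omega)
  obtain ⟨e₀, he₀⟩ := hS
  obtain ⟨x, hx, hx0⟩ := exists_cyc s t ((supp z).erase e₀) (U.erase v) v (by
    intro e he u hu huv
    refine mem_erase.2 ⟨huv, ?_⟩
    simp only [U, mem_filter, mem_univ, true_and]
    unfold deg
    rw [card_pos]
    exact ⟨e, by simp only [mem_filter, mem_univ, true_and]; exact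
      ⟨mem_supp.1 (mem_of_mem_erase he), hu⟩⟩) (by
    rw [card_erase_of_mem he₀]; omega)
  have hxs : supp x ⊆ (supp z).erase e₀ := by
    intro e he
    by_contra h
    exact mem_supp.1 he (hx.1 e h)
  have h10 := hmin x (cyc_mono (subset_univ _) hx) hx0 (hxs.trans (erase_subset _ _))
  have h11 := hx.1 e₀ (notMem_erase _ _)
  rw [h10] at h11
  exact mem_supp.1 he₀ h11


/-- the number of members of the basis active after `p` -/
theorem card_active {ι : Type} [Fintype ι] [DecidableEq ι] (s t : E → V) (f g : E → ℕ)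
    (hf : Function.Injective f)
    (hg : Function.Injective g) (N : ℕ) (hN : ∀ e, f e ≤ N) (hgf : ∀ e, g e = N - f e)
    (b : Basis ι (ZMod 2) (cyc s t (univ : Finset E))) (hbf : Distinct f b) (hbg : Distinct g b)
    (p : ℕ) (v₀ : V) :
    (univ.filter fun i => (∃ e, (b i : E → ZMod 2) e ≠ 0 ∧ f e ≤ p) ∧
      p < top f (b i : E → ZMod 2)).card ≤ ((bdry s t f p).erase v₀).card := by
  classical
  let A : Finset ι :=
    univ.filter fun i => (∃ e, (b i : E → ZMod 2) e ≠ 0 ∧ f e ≤ p) ∧ p < top f (b i : E → ZMod 2)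
  change A.card ≤ _
  have hinj : ∀ (c : A → ZMod 2),
      (∀ v ∈ (bdry s t f p).erase v₀, ∑ e, cut f p
        (∑ i : A, c i • (b i.1 : E → ZMod 2)) e * inc s t v e = 0) → c = 0 := by
    intro c hc
    let x : cyc s t (univ : Finset E) := ∑ i : A, c i • b i.1
    have hxc : (x : E → ZMod 2) = ∑ i : A, c i • (b i.1 : E → ZMod 2) := by
      simp [x]
    have hy : cut f p (x : E → ZMod 2) ∈ cyc s t (univ : Finset E) := by
      apply cut_mem s t f p _ x.2 v₀
      intro v hv hv0
      rw [hxc]
      exact hc v (mem_erase.2 ⟨hv0, hv⟩)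
    let y : cyc s t (univ : Finset E) := ⟨_, hy⟩
    let z : cyc s t (univ : Finset E) := x - y
    have hz : ∀ e, (z : E → ZMod 2) e = if f e ≤ p then 0 else (x : E → ZMod 2) e := by
      intro e
      change (x : E → ZMod 2) e - cut f p (x : E → ZMod 2) e = _
      unfold cut
      split_ifs <;> simp
    have h1 : ∀ i ∈ A, b.repr y i = 0 := by
      intro i hi
      by_contra h
      have h2 := short_members f hf b hbf y p (by
        intro e he
        by_contra h3
        apply he
        change cut f p (x : E → ZMod 2) e = 0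
        unfold cut
        rw [if_neg h3]) i h
      have h3 := (mem_filter.1 hi).2.2
      omega
    have h2 : ∀ i ∈ A, b.repr z i = 0 := by
      intro i hi
      by_contra h
      obtain ⟨⟨e, he, hep⟩, h4⟩ := (mem_filter.1 hi).2
      have hpN : p < N := by
        obtain ⟨e', he', hef'⟩ := top_attained f (coe_ne_zero b i)
        have := hN e'
        omega
      have h3 := short_members g hg b hbg z (N - p - 1) (by
        intro e' he'
        rw [hz] at he'
        have h5 : ¬ f e' ≤ p := by
          intro h6; rw [if_pos h6] at he'; exact he' rfl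
        rw [hgf]
        omega) i h
      have h5 := le_top g he
      rw [hgf] at h5
      have := hN e
      omega
    have h3 : ∀ i ∈ A, b.repr x i = 0 := by
      intro i hi
      have : x = y + z := by simp [z]
      rw [this, map_add, Finsupp.add_apply, h1 i hi, h2 i hi, add_zero]
    funext i
    have h4 := h3 i.1 i.2
    have h5 : b.repr x i.1 = c i := by
      simp only [x, map_sum, map_smul, b.repr_self, Finsupp.finsetSum_apply, Finsupp.smul_apply]
      rw [sum_eq_single i]
      · simp
      · intro j _ hj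
        rw [Finsupp.single_eq_of_ne]
        · simp
        · intro h; exact hj (Subtype.ext h.symm)
      · intro h; exact absurd (mem_univ i) h
    rw [← h5, h4]; rfl
  let W := (bdry s t f p).erase v₀
  let F : (A → ZMod 2) →ₗ[ZMod 2] (W → ZMod 2) :=
    { toFun := fun c v => ∑ e, cut f p (∑ i : A, c i • (b i.1 : E → ZMod 2)) e * inc s t v.1 e
      map_add' := by
        intro c d; funext v
        simp only [Pi.add_apply]
        rw [← sum_add_distrib]
        refine sum_congr rfl fun e _ => ?_
        rw [← add_mul]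
        congr 1
        unfold cut
        split_ifs
        · simp [add_smul, sum_add_distrib]
        · simp
      map_smul' := by
        intro a c; funext v
        simp only [Pi.smul_apply, RingHom.id_apply, smul_eq_mul]
        rw [mul_sum]
        refine sum_congr rfl fun e _ => ?_
        rw [← mul_assoc]
        congr 1
        unfold cut
        split_ifs
        · simp [mul_sum, mul_assoc]
        · simp }
  have hF : Function.Injective F := by
    rw [← LinearMap.ker_eq_bot, LinearMap.ker_eq_bot']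
    intro c hc
    apply hinj c
    intro v hv
    exact congrFun hc ⟨v, hv⟩
  have := LinearMap.finrank_le_finrank_of_injective hF
  rw [Module.finrank_fintype_fun_eq_card, Module.finrank_fintype_fun_eq_card, Fintype.card_coe,
    Fintype.card_coe] at this
  exact this

/-- the members of the basis meeting a block -/
theorem card_block {ι : Type} [Fintype ι] [DecidableEq ι] (s t : E → V) (f g : E → ℕ)
    (hf : Function.Injective f)
    (hg : Function.Injective g) (N : ℕ) (hN : ∀ e, f e ≤ N) (hgf : ∀ e, g e = N - f e)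
    (b : Basis ι (ZMod 2) (cyc s t (univ : Finset E))) (hbf : Distinct f b) (hbg : Distinct g b)
    (w : ℕ) (hw : ∀ p, (bdry s t f p).card ≤ w) (F : Finset E)
    (hF : ∀ e ∈ F, ∀ e' ∈ F, ∀ e'', f e ≤ f e'' → f e'' ≤ f e' → e'' ∈ F) :
    (univ.filter fun i => ∃ e ∈ F, (b i : E → ZMod 2) e ≠ 0).card ≤ w + F.card := by
  classical
  rcases F.eq_empty_or_nonempty with h0 | hne
  · subst h0; simp
  obtain ⟨e₁, he₁, hmin⟩ := exists_min_image F f hne
  let A : Finset ι := univ.filter fun i => (∃ e, (b i : E → ZMod 2) e ≠ 0 ∧ f e < f e₁) ∧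
    ∃ e ∈ F, (b i : E → ZMod 2) e ≠ 0
  let B : Finset ι := univ.filter fun i => (∀ e, (b i : E → ZMod 2) e ≠ 0 → f e₁ ≤ f e) ∧
    ∃ e ∈ F, (b i : E → ZMod 2) e ≠ 0
  have hsub : (univ.filter fun i => ∃ e ∈ F, (b i : E → ZMod 2) e ≠ 0) ⊆ A ∪ B := by
    intro i hi
    have hi' := (mem_filter.1 hi).2
    by_cases h : ∃ e, (b i : E → ZMod 2) e ≠ 0 ∧ f e < f e₁
    · exact mem_union_left _ (mem_filter.2 ⟨mem_univ _, h, hi'⟩)
    · push Not at h
      exact mem_union_right _ (mem_filter.2 ⟨mem_univ _, h, hi'⟩)
  have hA : A.card ≤ w := by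
    rcases A.eq_empty_or_nonempty with h | ⟨i₀, hi₀⟩
    · rw [h]; simp
    have hpos : 0 < f e₁ := by
      obtain ⟨⟨e, _, he⟩, _⟩ := (mem_filter.1 hi₀).2
      omega
    have h1 := card_active s t f g hf hg N hN hgf b hbf hbg (f e₁ - 1) (s e₁)
    refine le_trans (card_le_card ?_) (h1.trans ((card_le_card (erase_subset _ _)).trans (hw _)))
    intro i hi
    obtain ⟨⟨e, he, hle⟩, e', he', hbe'⟩ := (mem_filter.1 hi).2
    refine mem_filter.2 ⟨mem_univ _, ⟨e, he, by omega⟩, ?_⟩
    have h2 := le_top f hbe'
    have h3 := hmin e' he'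
    omega
  have hB : B.card ≤ F.card := by
    have hex : ∀ i, ∃ e, (b i : E → ZMod 2) e ≠ 0 ∧ g e = top g (b i : E → ZMod 2) := fun i =>
      top_attained g (coe_ne_zero b i)
    choose m hm hmg using hex
    refine card_le_card_of_injOn m ?_ ?_
    · intro i hi
      obtain ⟨hge, e', he', hbe'⟩ := (mem_filter.1 (mem_coe.1 hi)).2
      refine mem_coe.2 (hF e₁ he₁ e' he' (m i) (hge _ (hm i)) ?_)
      have h2 := le_top g hbe'
      rw [← hmg, hgf, hgf] at h2
      have h3 := hN e'
      have h4 := hN (m i)
      omega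
    · intro i _ j _ hij
      apply hbg
      rw [← hmg, ← hmg, hij]
  calc _ ≤ (A ∪ B).card := card_le_card hsub
    _ ≤ A.card + B.card := card_union_le _ _
    _ ≤ w + F.card := add_le_add hA hB

end graph

end MSH

theorem ms_thm : S_MS := by
  classical
  intro W E _ _ _ _ s t f w hl hf hw
  let N : ℕ := univ.sup f
  have hN : ∀ e, f e ≤ N := fun e => le_sup (f := f) (mem_univ e)
  let g : E → ℕ := fun e => N - f e
  have hg : Function.Injective g := by
    intro e e' h
    apply hf
    have h1 := hN e
    have h2 := hN e'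
    simp only [g] at h
    omega
  obtain ⟨b, hbf, hbg, hmin⟩ := MSH.exists_good f g hf hg
    (finBasis (ZMod 2) (cyc s t (univ : Finset E)))
  refine ⟨_, fun i => (b i : E → ZMod 2), fun i => (b i).2, ?_, ?_, ?_⟩
  · intro x hx
    have h1 : (⟨x, hx⟩ : cyc s t (univ : Finset E)) ∈ Submodule.span (ZMod 2) (Set.range b) := by
      rw [b.span_eq]; trivial
    have h2 := Submodule.mem_map_of_mem (f := (cyc s t (univ : Finset E)).subtype) h1
    rw [Submodule.map_span, ← Set.range_comp] at h2
    exact h2
  · intro i v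
    exact MSH.deg_le_two s t hl _ (b i).2 (fun x hx hx0 hs => hmin i x hx hx0 hs) v
  · intro F hF
    rw [Nat.card_eq_fintype_card, Fintype.card_subtype]
    exact MSH.card_block s t f g hf hg N hN (fun _ => rfl) b hbf hbg w hw F hF

end LW
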