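import Pool.Agent.H67.LW.Spec

/-!
Part PH of the blueprint LW: the piece of the clusters whose side touches almost all requests.
-/

set_option autoImplicit false

namespace LW

open Finset

theorem ph_thm (hLM : S_LM) (hVD : S_VD) : S_PH := by
  classical
  intro V _ _ G k Valid X C h R _ a b q hDec hC hh hab hq hq3
  obtain ⟨hLM1, -, -, -, -⟩ := hLM V G k Valid X hDec
  obtain ⟨hV1, -, hV3, -, -⟩ := hVD V G k Valid X C h hDec hC hh
  let T : Finset V → Finset R := fun D =>
    univ.filter fun r => a r ∈ Vh G C h D ∨ b r ∈ Vh G C h D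
  let P : Finset (Finset V) := univ.filter fun D =>
    Desc G X C D ∧ Fintype.card R < (T D).card + q
  have hP : ∀ D, D ∈ P ↔ Desc G X C D ∧ Fintype.card R < (T D).card + q := fun D => by
    simp only [P, mem_filter, mem_univ, true_and]
  refine ⟨P, ⟨?_, ?_, ?_⟩, ?_, ?_⟩
  · rw [hP]
    refine ⟨Relation.ReflTransGen.refl, ?_⟩
    have : T C = univ := by
      ext r
      simp only [T, mem_filter, mem_univ, true_and, iff_true, hV1, mem_erase, mem_union]
      obtain ⟨h1, h2, h3⟩ := hab r
      by_cases h4 : a r = h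
      · right
        exact ⟨fun h5 => h3 (h4.trans h5.symm), Or.inr h2⟩
      · left
        exact ⟨h4, Or.inr h1⟩
    rw [this, card_univ]
    omega
  · intro D hD
    exact ((hP D).1 hD).1
  · intro D hD E hE hED
    rw [hP] at hD ⊢
    refine ⟨hE, lt_of_lt_of_le hD.2 ?_⟩
    have h1 : D ⊆ E := (hLM1 E D ((hLM1 C E hC hE).1) hED).2.1
    have h2 := hV3 D E hD.1 hE h1
    apply Nat.add_le_add_right
    apply card_le_card
    intro r hr
    simp only [T, mem_filter, mem_univ, true_and] at hr ⊢
    exact hr.imp (fun h => h2 h) (fun h => h2 h)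
  · intro D₁ h₁ D₂ h₂ D₃ h₃ h12 h13 h23
    rw [hP] at h₁ h₂ h₃
    have hsum : (T D₁).card + (T D₂).card + (T D₃).card ≤ 2 * Fintype.card R := by
      have hc : ∀ D, (T D).card = ∑ r, if r ∈ T D then 1 else 0 := fun D => by simp
      rw [hc, hc, hc, ← sum_add_distrib, ← sum_add_distrib]
      calc _ ≤ ∑ _r : R, 2 := by
            refine sum_le_sum fun r _ => ?_
            have key : ∀ x, ¬ (x ∈ Vh G C h D₁ ∧ x ∈ Vh G C h D₂) ∧
                ¬ (x ∈ Vh G C h D₁ ∧ x ∈ Vh G C h D₃) ∧ ¬ (x ∈ Vh G C h D₂ ∧ x ∈ Vh G C h D₃) :=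
              fun x => ⟨fun h => disjoint_left.1 h12 h.1 h.2,
                fun h => disjoint_left.1 h13 h.1 h.2, fun h => disjoint_left.1 h23 h.1 h.2⟩
            have ka := key (a r)
            have kb := key (b r)
            simp only [T, mem_filter, mem_univ, true_and]
            split_ifs <;> first | omega | (exfalso; tauto)
        _ = _ := by simp [mul_comm]
    omega
  · intro D hD
    unfold Hang at hD
    simp only [mem_filter, mem_univ, true_and] at hD
    obtain ⟨hDP, E, hE, hED⟩ := hD
    have hCD : Desc G X C D := Relation.ReflTransGen.tail ((hP E).1 hE).1 hED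
    have h1 : ¬ Fintype.card R < (T D).card + q := fun h => hDP ((hP D).2 ⟨hCD, h⟩)
    rw [Nat.card_eq_fintype_card, Fintype.card_subtype]
    have h2 : (univ.filter fun r => a r ∉ Vh G C h D ∧ b r ∉ Vh G C h D) = (T D)ᶜ := by
      ext r
      simp only [T, mem_filter, mem_univ, true_and, mem_compl, not_or]
    rw [h2, card_compl]
    omega

end LW
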